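import Pool.Agent.BEng.Gen
import Pool.Agent.L3E.S1
import Pool.Agent.L3E.GR
import Pool.Agent.L3E.SWT
import Pool.Agent.L3E.SWU
import Pool.Agent.L3E.SWZ
import Pool.Agent.L3E.THK
import Pool.Agent.L3E.CG

set_option autoImplicit false

/-!
# Class bound for groups generated by conjugates of a left 3-Engel element,
# nilpotent groups without involutions
-/

namespace Pool.Agent.BEng

open scoped commutatorElement

universe u

lemma s1_all : Pool.Agent.L3E.Stmt_S1 :=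
  Pool.Agent.L3E.s1_proof (Pool.Agent.L3E.gr_proof Pool.Agent.L3E.cg_proof)
    (Pool.Agent.L3E.swt_proof
      (Pool.Agent.L3E.swu_proof Pool.Agent.L3E.swz_proof Pool.Agent.L3E.thk_proof))

lemma eng3 {G : Type u} [Group G] {x : G} (h : Eng 3 x) (g : G) :
    Commute ⁅x, g * x * g⁻¹⁆ x := by
  have h3 := h g⁻¹
  simp only [Function.iterate_succ, Function.iterate_zero, Function.comp_apply, id_eq, ec] at h3
  set c1 : G := (g⁻¹)⁻¹ * x⁻¹ * g⁻¹ * x with hc1
  set c2 : G := c1⁻¹ * x⁻¹ * c1 * x with hc2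
  have hc : Commute c2 x := by
    have h4 : c2⁻¹ * x⁻¹ * c2 * x = 1 := h3
    have h5 : c2 * x = x * c2 := by
      have : c2 * x = x * c2 * (c2⁻¹ * x⁻¹ * c2 * x) := by group
      rw [this, h4, mul_one]
    exact h5
  have hw : (g * x * g⁻¹) * x⁻¹ * (g * x * g⁻¹)⁻¹ = x * c2 * x⁻¹ * x⁻¹ := by
    rw [hc2, hc1]
    group
  have hx : Commute x x := Commute.refl x
  have h6 : Commute ((g * x * g⁻¹) * x⁻¹ * (g * x * g⁻¹)⁻¹) x := by
    rw [hw]
    exact ((hx.mul_left hc).mul_left hx.inv_left).mul_left hx.inv_left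
  have h7 : ⁅x, g * x * g⁻¹⁆ = x * ((g * x * g⁻¹) * x⁻¹ * (g * x * g⁻¹)⁻¹) := by
    rw [commutatorElement_def]
    simp only [mul_assoc]
  rw [h7]
  exact hx.mul_left h6

/-- converse of `eng3` -/
lemma eng3' {G : Type u} [Group G] {x : G} (h : ∀ g : G, Commute ⁅x, g * x * g⁻¹⁆ x) :
    Eng 3 x := by
  intro k
  have h0 := h k⁻¹
  rw [inv_inv] at h0
  simp only [Function.iterate_succ, Function.iterate_zero, Function.comp_apply, id_eq, ec]
  set c1 : G := k⁻¹ * x⁻¹ * k * x with hc1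
  set c2 : G := c1⁻¹ * x⁻¹ * c1 * x with hc2
  have h7 : ⁅x, k⁻¹ * x * k⁆ = x * (x * c2 * x⁻¹ * x⁻¹) := by
    rw [hc2, hc1]
    simp only [commutatorElement_def]; group
  rw [h7] at h0
  have hx : Commute x x := Commute.refl x
  have hc : Commute c2 x := by
    have h8 : c2 = x⁻¹ * x⁻¹ * (x * (x * c2 * x⁻¹ * x⁻¹)) * x * x := by group
    rw [h8]
    exact (((hx.inv_left.mul_left hx.inv_left).mul_left h0).mul_left hx).mul_left hx
  have h9 : c2⁻¹ * x⁻¹ * c2 * x = c2⁻¹ * x⁻¹ * (c2 * x) := by group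
  rw [h9, hc.eq]; group

/-- the inverse of a left 3-Engel element is left 3-Engel -/
lemma eng3_inv {G : Type u} [Group G] {x : G} (h : Eng 3 x) : Eng 3 x⁻¹ := by
  apply eng3'
  intro g
  -- x commutes with its commutator with y = g x g⁻¹, so does y
  have h1 := eng3 h g
  have h2 : Commute ⁅x, g * x * g⁻¹⁆ (g * x * g⁻¹) := by
    have h3 := eng3 h g⁻¹
    have h4 : ⁅x, g * x * g⁻¹⁆ = g * (⁅x, g⁻¹ * x * g⁻¹⁻¹⁆)⁻¹ * g⁻¹ := by
      simp only [commutatorElement_def]; group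
    have h5 : Commute (⁅x, g⁻¹ * x * g⁻¹⁻¹⁆)⁻¹ x := h3.inv_left
    rw [h4]
    have h6 : g * (⁅x, g⁻¹ * x * g⁻¹⁻¹⁆)⁻¹ * g⁻¹ * (g * x * g⁻¹) =
        g * ((⁅x, g⁻¹ * x * g⁻¹⁻¹⁆)⁻¹ * x) * g⁻¹ := by group
    have h7 : g * x * g⁻¹ * (g * (⁅x, g⁻¹ * x * g⁻¹⁻¹⁆)⁻¹ * g⁻¹) =
        g * (x * (⁅x, g⁻¹ * x * g⁻¹⁻¹⁆)⁻¹) * g⁻¹ := by group
    show _ = _
    rw [h6, h7, h5.eq]
  set y := g * x * g⁻¹ with hy
  have h8 : g * x⁻¹ * g⁻¹ = y⁻¹ := by rw [hy]; group
  rw [h8]
  have h9 : ⁅x⁻¹, y⁻¹⁆ = ⁅x, y⁆ := by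
    have h10 : ⁅x⁻¹, y⁻¹⁆ = (y * x)⁻¹ * ⁅x, y⁆⁻¹⁻¹ * (y * x) := by
      simp only [commutatorElement_def]; group
    have h11 : Commute ⁅x, y⁆ (y * x) := h2.mul_right h1
    rw [h10, inv_inv, mul_assoc, h11.eq]; group
  rw [h9]
  exact h1.inv_right

/-- class bound -/
theorem cls_bound : ∃ c : ℕ → ℕ, ∀ (G : Type u) [Group G], Group.IsNilpotent G →
    (∀ g : G, g * g = 1 → g = 1) → ∀ a : G, Eng 3 a → ∀ r : ℕ, Cls a r (c r) := by
  choose N hN using s1_all
  refine ⟨fun r => (Finset.range (r + 1)).sup N, ?_⟩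
  intro G _ hnil h2 a ha r S hS hconj
  set m := S.card with hm
  have hNm : N m ≤ (Finset.range (r + 1)).sup N :=
    Finset.le_sup (f := N) (Finset.mem_range.mpr (by omega))
  suffices h : (Subgroup.closure (S : Set G)).lowerCentralSeries (N m) = ⊥ by
    rw [eq_bot_iff, ← h]
    exact Subgroup.lowerCentralSeries_antitone _ hNm
  -- the free group
  set x : Fin m → G := fun i => (S.equivFin.symm i : G) with hx
  have hxr : Set.range x = (S : Set G) := by
    ext z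
    constructor
    · rintro ⟨i, rfl⟩
      exact (S.equivFin.symm i).2
    · intro hz
      exact ⟨S.equivFin ⟨z, hz⟩, by simp [hx]⟩
  set φ : FreeGroup (Fin m) →* G := FreeGroup.lift x with hφ
  set ψ := QuotientGroup.kerLift φ with hψ
  have hinj : Function.Injective ψ := QuotientGroup.kerLift_injective φ
  set Q := FreeGroup (Fin m) ⧸ φ.ker with hQ
  set x₀ : Fin m → Q := fun i => ((FreeGroup.of i : FreeGroup (Fin m)) : Q) with hx₀
  have hψx : ∀ i, ψ (x₀ i) = x i := by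
    intro i
    rw [hψ, hx₀]
    simp [QuotientGroup.kerLift_mk, hφ]
  have hcl : Subgroup.closure (Set.range x₀) = ⊤ := by
    have h1 : Set.range x₀ = (QuotientGroup.mk' φ.ker) '' (Set.range FreeGroup.of) := by
      rw [← Set.range_comp]; rfl
    rw [h1, ← MonoidHom.map_closure, FreeGroup.closure_range_of, ← MonoidHom.range_eq_map,
      MonoidHom.range_eq_top]
    exact QuotientGroup.mk'_surjective _
  have hmapT : (⊤ : Subgroup Q).map ψ = Subgroup.closure (S : Set G) := by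
    rw [← hcl, MonoidHom.map_closure, ← hxr, ← Set.range_comp]
    congr 1
    ext z
    constructor
    · rintro ⟨i, rfl⟩; exact ⟨i, (hψx i).symm⟩
    · rintro ⟨i, rfl⟩; exact ⟨i, hψx i⟩
  set D : Set Q := {q | IsConj a (ψ q)} with hD
  have hL : ∀ g k : G, Commute ⁅g * a * g⁻¹, k * a * k⁻¹⁆ (g * a * g⁻¹) := by
    intro g k
    have h1 := eng3 ha (g⁻¹ * k)
    have h3 : ⁅g * a * g⁻¹, k * a * k⁻¹⁆ = g * ⁅a, g⁻¹ * k * a * (g⁻¹ * k)⁻¹⁆ * g⁻¹ := by
      simp only [commutatorElement_def]; group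
    rw [h3]
    have h6 : g * ⁅a, g⁻¹ * k * a * (g⁻¹ * k)⁻¹⁆ * g⁻¹ * (g * a * g⁻¹) =
        g * (⁅a, g⁻¹ * k * a * (g⁻¹ * k)⁻¹⁆ * a) * g⁻¹ := by group
    have h7 : g * a * g⁻¹ * (g * ⁅a, g⁻¹ * k * a * (g⁻¹ * k)⁻¹⁆ * g⁻¹) =
        g * (a * ⁅a, g⁻¹ * k * a * (g⁻¹ * k)⁻¹⁆) * g⁻¹ := by group
    show _ = _
    rw [h6, h7, h1.eq]
  have hSand : Pool.Agent.L3E.Sand D := by
    constructor
    · intro q hq g
      rw [hD, Set.mem_ofPred_eq] at hq ⊢
      refine hq.trans ?_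
      rw [isConj_iff]
      exact ⟨ψ g, by simp⟩
    · intro q hq q' hq'
      rw [hD, Set.mem_ofPred_eq, isConj_iff] at hq hq'
      obtain ⟨g, hg⟩ := hq
      obtain ⟨k, hk⟩ := hq'
      have h1 := hL g k
      rw [hg, hk] at h1
      have h3 : ψ (⁅q, q'⁆ * q) = ψ (q * ⁅q, q'⁆) := by
        simp only [map_mul, map_commutatorElement]
        exact h1.eq
      exact hinj h3
  have hxD : ∀ i, x₀ i ∈ D := by
    intro i
    rw [hD, Set.mem_ofPred_eq, hψx]
    apply hconj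
    have : x i ∈ (S : Set G) := by rw [← hxr]; exact ⟨i, rfl⟩
    exact this
  have hsq := hN m Q D x₀ hSand hxD hcl
  -- nilpotency of Q
  obtain ⟨k, hk⟩ := (Subgroup.nilpotent_iff_lowerCentralSeries (G := G)).mp hnil
  have hkQ : (⊤ : Subgroup Q).lowerCentralSeries k = ⊥ := by
    have h1 := Subgroup.map_lowerCentralSeries (⊤ : Subgroup Q) ψ k
    have h3 : ((⊤ : Subgroup Q).map ψ).lowerCentralSeries k ≤ ⊥ := by
      rw [← hk]
      exact Subgroup.lowerCentralSeries_mono k le_top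
    rw [← h1] at h3
    rw [eq_bot_iff]
    intro q hq
    have h4 := h3 ⟨q, hq, rfl⟩
    rw [Subgroup.mem_bot] at h4 ⊢
    exact hinj (by rw [h4, map_one])
  have hdesc : ∀ d, ∀ j, N m ≤ j → k ≤ j + d → (⊤ : Subgroup Q).lowerCentralSeries j = ⊥ := by
    intro d
    induction d with
    | zero =>
      intro j _ hj
      rw [eq_bot_iff, ← hkQ]
      exact Subgroup.lowerCentralSeries_antitone _ (by simpa using hj)
    | succ d ih =>
      intro j hj hkj
      have h1 := ih (j + 1) (by omega) (by omega)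
      rw [eq_bot_iff]
      intro q hq
      have h3 := hsq j hj q hq
      have h4 : q * q ∈ (⊤ : Subgroup Q).lowerCentralSeries (j + 1) := h3
      rw [h1, Subgroup.mem_bot] at h4
      rw [Subgroup.mem_bot]
      apply hinj
      rw [map_one]
      apply h2
      rw [← map_mul, h4, map_one]
  have hfin := hdesc k (N m) (le_refl _) (by omega)
  rw [← hmapT, ← Subgroup.map_lowerCentralSeries, hfin, Subgroup.map_bot]

end Pool.Agent.BEng
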