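import Mathlib

set_option autoImplicit false

/-!
# Boundedly Engel elements: multiplication by elements whose conjugates generate nilpotent
subgroups of bounded class (arbitrary groups)
-/

namespace Pool.Agent.BEng

universe u

open scoped commutatorElement

variable {G : Type u} [Group G]

/-- `[y, x] = y⁻¹ x⁻¹ y x`, as a function of `y`. -/
def ec (x y : G) : G := y⁻¹ * x⁻¹ * y * x

/-- `x` is left `n`-Engel: `[y, x, ..., x] = 1` (`n` times) for all `y`. -/
def Eng (n : ℕ) (x : G) : Prop := ∀ y : G, (ec x)^[n] y = 1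

/-- Boundedly Engel elements. -/
def BddEng (x : G) : Prop := ∃ n : ℕ, 1 ≤ n ∧ Eng n x

/-- All sets of at most `r` conjugates of `a` generate subgroups of class at most `k`. -/
def Cls (a : G) (r k : ℕ) : Prop := ∀ S : Finset G, S.card ≤ r → (∀ s ∈ S, IsConj a s) →
  (Subgroup.closure (S : Set G)).lowerCentralSeries k = ⊥

lemma ec_one (x : G) : ec x (1 : G) = 1 := by simp [ec]

lemma ec_iter_one (x : G) (k : ℕ) : (ec x)^[k] (1 : G) = 1 := by
  induction k with
  | zero => rfl
  | succ k ih => rw [Function.iterate_succ_apply', ih, ec_one]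

lemma Eng.mono {n m : ℕ} {x : G} (h : Eng n x) (hnm : n ≤ m) : Eng m x := by
  intro y
  obtain ⟨k, rfl⟩ := Nat.exists_eq_add_of_le hnm
  rw [Nat.add_comm, Function.iterate_add_apply, h y, ec_iter_one]

lemma ec_conj (g x y : G) : ec (g * x * g⁻¹) (g * y * g⁻¹) = g * ec x y * g⁻¹ := by
  simp only [ec]; group

lemma ec_iter_conj (g x y : G) (k : ℕ) :
    (ec (g * x * g⁻¹))^[k] (g * y * g⁻¹) = g * (ec x)^[k] y * g⁻¹ := by
  induction k with
  | zero => rfl
  | succ k ih => rw [Function.iterate_succ_apply', ih, ec_conj, Function.iterate_succ_apply']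

lemma Eng.conj {n : ℕ} {x : G} (h : Eng n x) (g : G) : Eng n (g * x * g⁻¹) := by
  intro y
  have h1 := ec_iter_conj g x (g⁻¹ * y * g) n
  have h2 : g * (g⁻¹ * y * g) * g⁻¹ = y := by group
  rw [h2, h (g⁻¹ * y * g)] at h1
  rw [h1]; group

/-- invariance of a subgroup under conjugation by `b` and `b⁻¹` -/
def Inv (b : G) (M : Subgroup G) : Prop := ∀ m ∈ M, b⁻¹ * m * b ∈ M ∧ b * m * b⁻¹ ∈ M

lemma Inv.sup {b : G} {M N : Subgroup G} (hM : Inv b M) (hN : Inv b N) : Inv b (M ⊔ N) := by
  intro m hm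
  have h1 : ∀ c : G, (∀ m ∈ M, c⁻¹ * m * c ∈ M) → (∀ m ∈ N, c⁻¹ * m * c ∈ N) →
      ∀ m ∈ M ⊔ N, c⁻¹ * m * c ∈ M ⊔ N := by
    intro c h1 h2 m hm
    have h3 : M ⊔ N ≤ (M ⊔ N).comap (MulAut.conj c⁻¹).toMonoidHom := by
      rw [sup_le_iff]
      constructor
      · intro m hm
        rw [Subgroup.mem_comap]
        have := h1 m hm
        simpa using (show M ≤ M ⊔ N from le_sup_left) this
      · intro m hm
        rw [Subgroup.mem_comap]
        have := h2 m hm
        simpa using (show N ≤ M ⊔ N from le_sup_right) this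
    have h4 := h3 hm
    rw [Subgroup.mem_comap] at h4
    simpa using h4
  constructor
  · exact h1 b (fun m hm => (hM m hm).1) (fun m hm => (hN m hm).1) m hm
  · have := h1 b⁻¹ (fun m hm => by simpa using (hM m hm).2) (fun m hm => by simpa using (hN m hm).2)
      m hm
    simpa using this

lemma Inv.closure {b : G} {S : Set G} (h1 : ∀ s ∈ S, b⁻¹ * s * b ∈ Subgroup.closure S)
    (h2 : ∀ s ∈ S, b * s * b⁻¹ ∈ Subgroup.closure S) : Inv b (Subgroup.closure S) := by
  have h : ∀ c : G, (∀ s ∈ S, c⁻¹ * s * c ∈ Subgroup.closure S) →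
      ∀ m ∈ Subgroup.closure S, c⁻¹ * m * c ∈ Subgroup.closure S := by
    intro c hc m hm
    have h3 : Subgroup.closure S ≤ (Subgroup.closure S).comap (MulAut.conj c⁻¹).toMonoidHom := by
      rw [Subgroup.closure_le]
      intro s hs
      simpa using hc s hs
    have h4 := h3 hm
    rw [Subgroup.mem_comap] at h4
    simpa using h4
  intro m hm
  refine ⟨h b h1 m hm, ?_⟩
  have := h b⁻¹ (fun s hs => by simpa using h2 s hs) m hm
  simpa using this

/-- the first `n` conjugates of `y` by powers of `b` -/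
noncomputable def T [DecidableEq G] (b : G) (n : ℕ) (y : G) : Finset G :=
  (Finset.range n).image fun i => (b ^ i)⁻¹ * y * b ^ i

lemma T_card [DecidableEq G] (b : G) (n : ℕ) (y : G) : (T b n y).card ≤ n := by
  rw [T]
  exact Finset.card_image_le.trans (by simp)

lemma T_conj [DecidableEq G] (b : G) (n : ℕ) {a y : G} (h : IsConj a y) :
    ∀ s ∈ T b n y, IsConj a s := by
  intro s hs
  rw [T, Finset.mem_image] at hs
  obtain ⟨i, _, rfl⟩ := hs
  refine h.trans ?_
  rw [isConj_iff]
  exact ⟨(b ^ i)⁻¹, by simp⟩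

/-- `<y>^{<b>}` is generated by `n` conjugates if `[y, b, ..., b] = 1` -/
lemma T_inv [DecidableEq G] (b : G) (n : ℕ) (y : G) (hn : 1 ≤ n) (h : (ec b)^[n] y = 1) :
    Inv b (Subgroup.closure (T b n y : Set G)) ∧ y ∈ Subgroup.closure (T b n y : Set G) := by
  -- the subgroup generated by the iterated commutators
  set E : Set G := {e | ∃ k < n, e = (ec b)^[k] y} with hE
  have hstep : ∀ k, b⁻¹ * (ec b)^[k] y * b = (ec b)^[k] y * (ec b)^[k + 1] y := by
    intro k
    rw [Function.iterate_succ_apply', ec]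
    group
  have hmem : ∀ k, (ec b)^[k] y ∈ Subgroup.closure E := by
    intro k
    by_cases hk : k < n
    · exact Subgroup.subset_closure ⟨k, hk, rfl⟩
    · have : (ec b)^[k] y = 1 := by
        obtain ⟨j, rfl⟩ := Nat.exists_eq_add_of_le (Nat.le_of_not_lt hk)
        rw [Nat.add_comm, Function.iterate_add_apply, h, ec_iter_one]
      rw [this]; exact Subgroup.one_mem _
  have hdown : ∀ j k, n ≤ k + j → b * (ec b)^[k] y * b⁻¹ ∈ Subgroup.closure E := by
    intro j
    induction j with
    | zero =>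
      intro k hk
      have : (ec b)^[k] y = 1 := by
        obtain ⟨j, rfl⟩ := Nat.exists_eq_add_of_le (show n ≤ k by simpa using hk)
        rw [Nat.add_comm, Function.iterate_add_apply, h, ec_iter_one]
      rw [this]; simp
    | succ j ih =>
      intro k hk
      have h1 := ih (k + 1) (by omega)
      have h2 : b * (ec b)^[k] y * b⁻¹ = (ec b)^[k] y * (b * (ec b)^[k + 1] y * b⁻¹)⁻¹ := by
        have h3 : (ec b)^[k] y = b * (b⁻¹ * (ec b)^[k] y * b) * b⁻¹ := by group
        rw [eq_mul_inv_iff_mul_eq]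
        conv_rhs => rw [h3, hstep k]
        group
      rw [h2]
      exact Subgroup.mul_mem _ (hmem k) (Subgroup.inv_mem _ h1)
  have hInv : Inv b (Subgroup.closure E) := by
    apply Inv.closure
    · rintro s ⟨k, _, rfl⟩
      rw [hstep k]
      exact Subgroup.mul_mem _ (hmem k) (hmem (k + 1))
    · rintro s ⟨k, hk, rfl⟩
      exact hdown n k (by omega)
  -- both subgroups are equal
  have hpow : ∀ i, (b ^ i)⁻¹ * y * b ^ i ∈ Subgroup.closure E := by
    intro i
    induction i with
    | zero => simpa using hmem 0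
    | succ i ih =>
      have h1 := (hInv _ ih).1
      have h2 : (b ^ (i + 1))⁻¹ * y * b ^ (i + 1) = b⁻¹ * ((b ^ i)⁻¹ * y * b ^ i) * b := by
        rw [pow_succ]; group
      rw [h2]; exact h1
  have hle1 : Subgroup.closure (T b n y : Set G) ≤ Subgroup.closure E := by
    rw [Subgroup.closure_le]
    intro s hs
    rw [Finset.mem_coe, T, Finset.mem_image] at hs
    obtain ⟨i, _, rfl⟩ := hs
    exact hpow i
  have hback : ∀ k, (ec b)^[k] y ∈
      Subgroup.closure {s : G | ∃ i ≤ k, s = (b ^ i)⁻¹ * y * b ^ i} := by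
    intro k
    induction k with
    | zero => exact Subgroup.subset_closure ⟨0, le_refl _, by simp⟩
    | succ k ih =>
      have hA : Subgroup.closure {s : G | ∃ i ≤ k, s = (b ^ i)⁻¹ * y * b ^ i} ≤
          Subgroup.closure {s : G | ∃ i ≤ k + 1, s = (b ^ i)⁻¹ * y * b ^ i} := by
        apply Subgroup.closure_mono
        rintro s ⟨i, hi, rfl⟩
        exact ⟨i, by omega, rfl⟩
      have hB : Subgroup.closure {s : G | ∃ i ≤ k, s = (b ^ i)⁻¹ * y * b ^ i} ≤
          (Subgroup.closure {s : G | ∃ i ≤ k + 1, s = (b ^ i)⁻¹ * y * b ^ i}).comap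
            (MulAut.conj b⁻¹).toMonoidHom := by
        rw [Subgroup.closure_le]
        rintro s ⟨i, hi, rfl⟩
        rw [SetLike.mem_coe, Subgroup.mem_comap]
        apply Subgroup.subset_closure
        refine ⟨i + 1, by omega, ?_⟩
        simp only [MulEquiv.coe_toMonoidHom, MulAut.conj_apply, inv_inv]
        rw [pow_succ]; group
      have h1 : (ec b)^[k + 1] y = ((ec b)^[k] y)⁻¹ * (b⁻¹ * (ec b)^[k] y * b) := by
        rw [Function.iterate_succ_apply', ec]; group
      rw [h1]
      refine Subgroup.mul_mem _ (Subgroup.inv_mem _ (hA ih)) ?_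
      have h2 := hB ih
      rw [Subgroup.mem_comap] at h2
      simpa using h2
  have hle2 : Subgroup.closure E ≤ Subgroup.closure (T b n y : Set G) := by
    rw [Subgroup.closure_le]
    rintro s ⟨k, hk, rfl⟩
    refine Subgroup.closure_mono ?_ (hback k)
    rintro s ⟨i, hi, rfl⟩
    rw [Finset.mem_coe, T, Finset.mem_image]
    exact ⟨i, Finset.mem_range.mpr (by omega), rfl⟩
  have heq : Subgroup.closure (T b n y : Set G) = Subgroup.closure E := le_antisymm hle1 hle2
  rw [heq]
  exact ⟨hInv, by simpa using hmem 0⟩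

/-- closing a finite set under `b` -/
lemma close_up [DecidableEq G] (b : G) (n : ℕ) (hn : 1 ≤ n) (hb : Eng n b) (a : G) (B : Finset G)
    (hB : ∀ s ∈ B, IsConj a s) : ∃ S : Finset G, S.card ≤ n * B.card ∧ (∀ s ∈ S, IsConj a s) ∧
      Inv b (Subgroup.closure (S : Set G)) ∧
      (B : Set G) ⊆ Subgroup.closure (S : Set G) := by
  refine ⟨B.biUnion (T b n), ?_, ?_, ?_, ?_⟩
  · rw [Nat.mul_comm]
    exact Finset.card_biUnion_le_card_mul _ _ _ fun s _ => T_card b n s
  · intro s hs
    rw [Finset.mem_biUnion] at hs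
    obtain ⟨t, ht, hs⟩ := hs
    exact T_conj b n (hB t ht) s hs
  · apply Inv.closure
    · intro s hs
      rw [Finset.mem_coe, Finset.mem_biUnion] at hs
      obtain ⟨t, ht, hs⟩ := hs
      have h1 := ((T_inv b n t hn (hb t)).1 s (Subgroup.subset_closure hs)).1
      refine Subgroup.closure_mono ?_ h1
      intro z hz
      exact Finset.mem_coe.mpr (Finset.mem_biUnion.mpr ⟨t, ht, hz⟩)
    · intro s hs
      rw [Finset.mem_coe, Finset.mem_biUnion] at hs
      obtain ⟨t, ht, hs⟩ := hs
      have h1 := ((T_inv b n t hn (hb t)).1 s (Subgroup.subset_closure hs)).2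
      refine Subgroup.closure_mono ?_ h1
      intro z hz
      exact Finset.mem_coe.mpr (Finset.mem_biUnion.mpr ⟨t, ht, hz⟩)
  · intro t ht
    have h1 := (T_inv b n t hn (hb t)).2
    refine Subgroup.closure_mono ?_ h1
    intro z hz
    exact Finset.mem_coe.mpr (Finset.mem_biUnion.mpr ⟨t, ht, hz⟩)

/-- the number of conjugates after `j` steps -/
def rr (n : ℕ) : ℕ → ℕ
  | 0 => n
  | j + 1 => n * (2 * rr n j + 1)

lemma tower [DecidableEq G] (b : G) (n : ℕ) (hn : 1 ≤ n) (hb : Eng n b) (a h : G) (j : ℕ) :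
    ∃ S : Finset G, S.card ≤ rr n j ∧ (∀ s ∈ S, IsConj a s) ∧
      Inv b (Subgroup.closure (S : Set G)) ∧ a ∈ Subgroup.closure (S : Set G) ∧
      ∃ m ∈ Subgroup.closure (S : Set G), (ec (a * b))^[j] h = (ec b)^[j] h * m := by
  induction j with
  | zero =>
    obtain ⟨S, h1, h2, h3, h4⟩ := close_up b n hn hb a {a} (fun s hs => by
      rw [Finset.mem_singleton] at hs; rw [hs])
    refine ⟨S, by simpa [rr] using h1, h2, h3, h4 (by simp), 1, Subgroup.one_mem _, by simp⟩
  | succ j ih =>
    obtain ⟨S, h1, h2, h3, h4, m, hm, h5⟩ := ih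
    set y := (ec b)^[j] h with hy
    set y' := (ec b)^[j + 1] h with hy'
    set B : Finset G := S ∪ S.image (fun s => y'⁻¹ * s * y') ∪ {y⁻¹ * a * y} with hB
    have hBc : B.card ≤ 2 * rr n j + 1 := by
      refine (Finset.card_union_le _ _).trans ?_
      have h6 := Finset.card_union_le S (S.image (fun s => y'⁻¹ * s * y'))
      have h7 : (S.image (fun s => y'⁻¹ * s * y')).card ≤ S.card := Finset.card_image_le
      simp only [Finset.card_singleton]
      omega
    have hBconj : ∀ s ∈ B, IsConj a s := by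
      intro s hs
      rw [hB, Finset.mem_union, Finset.mem_union] at hs
      rcases hs with (hs | hs) | hs
      · exact h2 s hs
      · rw [Finset.mem_image] at hs
        obtain ⟨t, ht, rfl⟩ := hs
        refine (h2 t ht).trans ?_
        rw [isConj_iff]
        exact ⟨y'⁻¹, by simp⟩
      · rw [Finset.mem_singleton] at hs
        rw [hs, isConj_iff]
        exact ⟨y⁻¹, by simp⟩
    obtain ⟨S', k1, k2, k3, k4⟩ := close_up b n hn hb a B hBconj
    have hSS : Subgroup.closure (S : Set G) ≤ Subgroup.closure (S' : Set G) := by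
      rw [Subgroup.closure_le]
      intro s hs
      apply k4
      rw [hB]
      simp only [Finset.coe_union, Set.mem_union]
      exact Or.inl (Or.inl hs)
    have hconjS : ∀ g ∈ Subgroup.closure (S : Set G),
        y'⁻¹ * g * y' ∈ Subgroup.closure (S' : Set G) := by
      intro g hg
      have h6 : Subgroup.closure (S : Set G) ≤
          (Subgroup.closure (S' : Set G)).comap (MulAut.conj y'⁻¹).toMonoidHom := by
        rw [Subgroup.closure_le]
        intro s hs
        rw [SetLike.mem_coe, Subgroup.mem_comap]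
        apply k4
        rw [hB]
        simp only [Finset.coe_union, Set.mem_union, Finset.coe_image, Set.mem_image]
        refine Or.inl (Or.inr ⟨s, hs, ?_⟩)
        simp
      have h7 := h6 hg
      rw [Subgroup.mem_comap] at h7
      simpa using h7
    have hay : y⁻¹ * a * y ∈ Subgroup.closure (S' : Set G) := by
      apply k4
      rw [hB]
      simp
    refine ⟨S', ?_, k2, k3, hSS h4, (y'⁻¹ * m⁻¹ * y') *
      (b⁻¹ * ((y⁻¹ * a * y)⁻¹ * m * a) * b), ?_, ?_⟩
    · calc S'.card ≤ n * B.card := k1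
        _ ≤ n * (2 * rr n j + 1) := Nat.mul_le_mul_left _ hBc
    · refine Subgroup.mul_mem _ (hconjS _ (Subgroup.inv_mem _ hm)) ?_
      refine (k3 _ ?_).1
      exact Subgroup.mul_mem _ (Subgroup.mul_mem _ (Subgroup.inv_mem _ hay) (hSS hm)) (hSS h4)
    · rw [Function.iterate_succ_apply', h5]
      have h6 : y' = y⁻¹ * b⁻¹ * y * b := by
        rw [hy', Function.iterate_succ_apply', ← hy, ec]
      rw [h6]
      simp only [ec]
      group

/-- descent along the lower central series -/
lemma descent (b a : G) (n : ℕ) (hb : Eng n b) (M : Subgroup G) (hM : Inv b M) (ha : a ∈ M)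
    (i : ℕ) (z : G) (hz : z ∈ M.lowerCentralSeries i) :
    (ec (a * b))^[n] z ∈ M.lowerCentralSeries (i + 1) := by
  have hInv : ∀ i, Inv b (M.lowerCentralSeries i) := by
    have key : ∀ c : G, (∀ m ∈ M, c⁻¹ * m * c ∈ M) → (∀ m ∈ M, c * m * c⁻¹ ∈ M) →
        ∀ i, ∀ m ∈ M.lowerCentralSeries i, c⁻¹ * m * c ∈ M.lowerCentralSeries i := by
      intro c h1 h2 i m hm
      have h3 : M.map (MulAut.conj c⁻¹).toMonoidHom = M := by
        apply le_antisymm
        · rintro _ ⟨m, hm, rfl⟩
          simpa using h1 m hm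
        · intro m hm
          exact ⟨c * m * c⁻¹, h2 m hm, by simp [mul_assoc]⟩
      have h4 := Subgroup.map_lowerCentralSeries M (MulAut.conj c⁻¹).toMonoidHom i
      rw [h3] at h4
      rw [← h4]
      exact ⟨m, hm, by simp⟩
    intro i m hm
    refine ⟨key b (fun m hm => (hM m hm).1) (fun m hm => (hM m hm).2) i m hm, ?_⟩
    have := key b⁻¹ (fun m hm => by simpa using (hM m hm).2)
      (fun m hm => by simpa using (hM m hm).1) i m hm
    simpa using this
  have hcomm : ∀ p ∈ M.lowerCentralSeries i, ∀ q ∈ M, p⁻¹ * q⁻¹ * p * q ∈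
      M.lowerCentralSeries (i + 1) := by
    intro p hp q hq
    have h1 : ⁅p⁻¹, q⁻¹⁆ ∈ M.lowerCentralSeries (i + 1) := by
      rw [Subgroup.lowerCentralSeries_succ]
      exact Subgroup.commutator_mem_commutator (Subgroup.inv_mem _ hp) (Subgroup.inv_mem _ hq)
    rw [commutatorElement_def] at h1
    simpa using h1
  have hanti : M.lowerCentralSeries (i + 1) ≤ M.lowerCentralSeries i :=
    M.lowerCentralSeries_antitone (Nat.le_succ i)
  have hleM : ∀ j, M.lowerCentralSeries j ≤ M := fun j => M.lowerCentralSeries_le_self j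
  have hnorm : ∀ t ∈ M.lowerCentralSeries (i + 1), ∀ g ∈ M,
      g⁻¹ * t * g ∈ M.lowerCentralSeries (i + 1) := by
    intro t ht g hg
    have h1 := M.self_le_normalizer_lowerCentralSeries (i + 1) (Subgroup.inv_mem _ hg)
    rw [Subgroup.mem_normalizer_iff] at h1
    have h2 := (h1 t).mp ht
    simpa using h2
  have claim : ∀ k, (ec b)^[k] z ∈ M.lowerCentralSeries i ∧
      ∃ t ∈ M.lowerCentralSeries (i + 1), (ec (a * b))^[k] z = (ec b)^[k] z * t := by
    intro k
    induction k with
    | zero => exact ⟨hz, 1, Subgroup.one_mem _, by simp⟩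
    | succ k ih =>
      obtain ⟨h1, t, ht, h2⟩ := ih
      set v := (ec b)^[k] z with hv
      have h3 : (ec b)^[k + 1] z = v⁻¹ * (b⁻¹ * v * b) := by
        rw [Function.iterate_succ_apply', ← hv, ec]; group
      have h4 : (ec b)^[k + 1] z ∈ M.lowerCentralSeries i := by
        rw [h3]
        exact Subgroup.mul_mem _ (Subgroup.inv_mem _ h1) ((hInv i) v h1).1
      refine ⟨h4, ?_⟩
      set w := (ec b)^[k + 1] z with hw
      -- u = v t
      have hu : v * t ∈ M.lowerCentralSeries i := Subgroup.mul_mem _ h1 (hanti ht)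
      have h5 := hcomm (v * t) hu a ha
      refine ⟨(w⁻¹ * t⁻¹ * w) * (b⁻¹ * t * b) *
        (b⁻¹ * ((v * t)⁻¹ * a⁻¹ * (v * t) * a) * b), ?_, ?_⟩
      · refine Subgroup.mul_mem _ (Subgroup.mul_mem _ ?_ ((hInv (i + 1)) t ht).1)
          ((hInv (i + 1)) _ h5).1
        exact hnorm _ (Subgroup.inv_mem _ ht) w (hleM i h4)
      · rw [Function.iterate_succ_apply', h2, h3]
        simp only [ec]
        group
  obtain ⟨_, t, ht, h2⟩ := claim n
  rw [h2, hb z, one_mul]
  exact ht

/-- the main lemma, with bounds -/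
theorem main_lemma (a b : G) (n : ℕ) (hn : 1 ≤ n) (hb : Eng n b) (c : ℕ)
    (hc : Cls a (rr n n) c) : Eng (n * c + n) (a * b) := by
  classical
  intro h
  obtain ⟨S, h1, h2, h3, h4, m, hm, h5⟩ := tower b n hn hb a h n
  rw [Function.iterate_add_apply, h5, hb h, one_mul]
  have h6 : ∀ i, (ec (a * b))^[n * i] m ∈
      (Subgroup.closure (S : Set G)).lowerCentralSeries i := by
    intro i
    induction i with
    | zero => simpa using hm
    | succ i ih =>
      have h7 : n * (i + 1) = n + n * i := by ring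
      rw [h7, Function.iterate_add_apply]
      exact descent b a n hb _ h3 h4 i _ ih
  have h7 := h6 c
  rw [hc S h1 h2, Subgroup.mem_bot] at h7
  exact h7

end Pool.Agent.BEng
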